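import Pool.Agent.H664.QK.Stm

/-! # QK, job IND: the induction -/

set_option autoImplicit false

open Cardinal MvPolynomial

namespace Pool.Agent.H800.QK

open Pool.Agent.H664.QK

/-- clearing denominators in a substitution -/
theorem clr {K : Subfield ℂ} {σ τ : Type} (A B : σ → MvPolynomial τ K) (g : MvPolynomial σ K) :
    ∃ G D : MvPolynomial τ K, ∀ z : τ → ℂ, (∀ s, aeval z (B s) ≠ 0) → aeval z D ≠ 0 ∧
      aeval z G = aeval z D * aeval (fun s => aeval z (A s) / aeval z (B s)) g := by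
  induction g using MvPolynomial.induction_on with
  | C a =>
    refine ⟨C a, 1, fun z _ => ⟨by simp, ?_⟩⟩
    simp
  | add f g hf hg =>
    obtain ⟨G₁, D₁, h₁⟩ := hf
    obtain ⟨G₂, D₂, h₂⟩ := hg
    refine ⟨G₁ * D₂ + G₂ * D₁, D₁ * D₂, fun z hz => ⟨?_, ?_⟩⟩
    · rw [map_mul]
      exact mul_ne_zero (h₁ z hz).1 (h₂ z hz).1
    · rw [map_add, map_mul, map_mul, map_mul, map_add, (h₁ z hz).2, (h₂ z hz).2]
      ring
  | mul_X f s hf =>
    obtain ⟨G₁, D₁, h₁⟩ := hf
    refine ⟨G₁ * A s, D₁ * B s, fun z hz => ⟨?_, ?_⟩⟩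
    · rw [map_mul]
      exact mul_ne_zero (h₁ z hz).1 (hz s)
    · rw [map_mul, map_mul, map_mul, (h₁ z hz).2, aeval_X]
      have := hz s
      field_simp

theorem mem_acl {K : Subfield ℂ} {S : Set ℂ} {z : ℂ} :
    z ∈ acl K S ↔ IsAlgebraic (IntermediateField.adjoin K S) z :=
  mem_algebraicClosure_iff

/-- division by an integer -/
theorem div_int {F : Subfield ℂ} {k : ℤ} (hk : k ≠ 0) {z : ℂ} (h : (k : ℂ) * z ∈ F) : z ∈ F := by
  have h1 : (k : ℂ) ≠ 0 := by exact_mod_cast hk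
  have h2 : z = (k : ℂ)⁻¹ * ((k : ℂ) * z) := by field_simp
  rw [h2]
  exact F.mul_mem (F.inv_mem (F.intCast_mem k)) h

/-- roots -/
theorem root_acl {K : Subfield ℂ} {S : Set ℂ} {k : ℤ} (hk : k ≠ 0) {z : ℂ}
    (h : Complex.exp ((k : ℂ) * z) ∈ acl K S) : Complex.exp z ∈ acl K S := by
  have h1 : Complex.exp z ^ k.natAbs ∈ acl K S := by
    rw [Complex.exp_int_mul] at h
    rcases Int.natAbs_eq k with h2 | h2
    · rw [h2, zpow_natCast] at h
      exact h
    · rw [h2, zpow_neg, zpow_natCast] at h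
      exact inv_mem_iff.1 h
  exact mem_acl.2 (IsAlgebraic.of_pow (Int.natAbs_pos.2 hk) (mem_acl.1 h1))

/-- the case `p = 0` -/
theorem rel_zero {K : Subfield ℂ} {q : ℕ} {t t' : Fin q → ℂ} (h : Iso K t t') (w : Fin 0 → ℂ) :
    Rel K t t' w := by
  obtain ⟨σ, h1, h2, h3⟩ := h
  refine ⟨w, fun g hg => ?_⟩
  have hK : ∀ c : K, (c : ℂ) ∈ acl K (Set.range (ex t)) := fun c => by
    rw [mem_acl]
    exact isAlgebraic_algebraMap (⟨c, (IntermediateField.adjoin K _).algebraMap_mem c⟩ :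
      IntermediateField.adjoin K (Set.range (ex t)))
  have hP : ∀ i, ex t i ∈ acl K (Set.range (ex t)) := fun i => by
    rw [mem_acl]
    exact isAlgebraic_algebraMap (⟨ex t i, IntermediateField.subset_adjoin K _ ⟨i, rfl⟩⟩ :
      IntermediateField.adjoin K (Set.range (ex t)))
  let cK : K →+* acl K (Set.range (ex t)) :=
    { toFun := fun c => ⟨c, hK c⟩
      map_one' := rfl
      map_mul' := fun _ _ => rfl
      map_zero' := rfl
      map_add' := fun _ _ => rfl }
  let P : (Fin q ⊕ Fin q) ⊕ (Fin 0 ⊕ Fin 0) → acl K (Set.range (ex t)) :=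
    Sum.elim (fun i => ⟨ex t i, hP i⟩) (Sum.elim (fun i => i.elim0) (fun i => i.elim0))
  have e1 : ((acl K (Set.range (ex t))).subtype).comp (eval₂Hom cK P) =
      (aeval (Sum.elim (ex t) (ex w)) : MvPolynomial _ K →ₐ[K] ℂ).toRingHom := by
    apply MvPolynomial.ringHom_ext
    · intro c
      simp [cK]
      rfl
    · rintro (i | (i | i))
      · simp [P]
      · exact i.elim0
      · exact i.elim0
  have e2 : (((acl K (Set.range (ex t'))).subtype).comp (σ : _ →+* _)).comp (eval₂Hom cK P) =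
      (aeval (Sum.elim (ex t') (ex w)) : MvPolynomial _ K →ₐ[K] ℂ).toRingHom := by
    apply MvPolynomial.ringHom_ext
    · intro c
      simp only [RingHom.comp_apply, eval₂Hom_C]
      refine (h1 (cK c) c.2).trans ?_
      simp [cK]
      rfl
    · rintro ((i | i) | (i | i))
      · simp only [RingHom.comp_apply, eval₂Hom_X']
        refine (h2 _ i rfl).trans ?_
        simp [ex]
      · simp only [RingHom.comp_apply, eval₂Hom_X']
        refine (h3 _ i rfl).trans ?_
        simp [ex]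
      · exact i.elim0
      · exact i.elim0
  have h4 := RingHom.congr_fun e1 g
  have h5 := RingHom.congr_fun e2 g
  have h6 : (eval₂Hom cK P) g = 0 := by
    apply Subtype.ext
    exact h4.trans hg
  refine h5.symm.trans ?_
  rw [RingHom.comp_apply, h6, map_zero]

/-- the natural size of an integer vector -/
theorem exists_min {n : ℕ} (P : (Fin n → ℤ) → Prop) (m : Fin n → ℤ) (hm : m ≠ 0) (hP : P m)
    (hdiv : ∀ (k : ℤ) (m' : Fin n → ℤ), k ≠ 0 → P (k • m') → P m') :
    ∃ m : Fin n → ℤ, m ≠ 0 ∧ P m ∧ ∀ (k : ℤ) (m' : Fin n → ℤ), m = k • m' → k = 1 ∨ k = -1 := by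
  classical
  have hex : ∃ s : ℕ, ∃ m : Fin n → ℤ, m ≠ 0 ∧ P m ∧ ∑ i, (m i).natAbs = s :=
    ⟨_, m, hm, hP, rfl⟩
  obtain ⟨m₁, h1, h2, h3⟩ := Nat.find_spec hex
  refine ⟨m₁, h1, h2, fun k m' hk => ?_⟩
  have hk0 : k ≠ 0 := by
    rintro rfl
    exact h1 (by rw [hk, zero_smul])
  have hm' : m' ≠ 0 := by
    rintro rfl
    exact h1 (by rw [hk, smul_zero])
  have h4 : Nat.find hex ≤ ∑ i, (m' i).natAbs :=
    Nat.find_min' hex ⟨m', hm', hdiv k m' hk0 (hk ▸ h2), rfl⟩
  have h5 : ∑ i, (m₁ i).natAbs = k.natAbs * ∑ i, (m' i).natAbs := by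
    rw [Finset.mul_sum]
    refine Finset.sum_congr rfl fun i _ => ?_
    rw [hk, Pi.smul_apply, smul_eq_mul, Int.natAbs_mul]
  have h6 : 0 < ∑ i, (m' i).natAbs := by
    obtain ⟨i, hi⟩ := Function.ne_iff.1 hm'
    exact Finset.sum_pos' (fun _ _ => Nat.zero_le _) ⟨i, Finset.mem_univ _, Int.natAbs_pos.2 hi⟩
  rw [← h3, h5] at h4
  have h7 : k.natAbs ≤ 1 := by
    by_contra h8
    nlinarith
  have h8 : k.natAbs = 1 := by
    have := Int.natAbs_pos.2 hk0
    omega
  omega

/-- sums over `Fin.append` -/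
theorem sum_append {q p : ℕ} (n : Fin (q + p) → ℤ) (t : Fin q → ℂ) (w : Fin p → ℂ) :
    ∑ j, (n j : ℂ) * Fin.append t w j =
      ∑ j, (n (Fin.castAdd p j) : ℂ) * t j + ∑ j, (n (Fin.natAdd q j) : ℂ) * w j := by
  rw [Fin.sum_univ_add]
  simp

/-- the change of coordinates in a relation -/
theorem rel_of {K : Subfield ℂ} {q p : ℕ} (M' : Matrix (Fin (p + 1)) (Fin (p + 1)) ℤ)
    (g : MvPolynomial ((Fin q ⊕ Fin q) ⊕ (Fin (p + 1) ⊕ Fin (p + 1))) K) :
    ∃ G D : MvPolynomial ((Fin (q + 1) ⊕ Fin (q + 1)) ⊕ (Fin p ⊕ Fin p)) K,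
      ∀ (t : Fin q → ℂ) (a : ℂ) (w : Fin p → ℂ),
        aeval (Sum.elim (ex (Fin.snoc t a : Fin (q + 1) → ℂ)) (ex w)) D ≠ 0 ∧
        aeval (Sum.elim (ex (Fin.snoc t a : Fin (q + 1) → ℂ)) (ex w)) G =
          aeval (Sum.elim (ex (Fin.snoc t a : Fin (q + 1) → ℂ)) (ex w)) D *
          aeval (Sum.elim (ex t) (ex fun i => ∑ j, (M' i j : ℂ) *
            (Fin.cons a w : Fin (p + 1) → ℂ) j)) g := by
  let U : Fin (p + 1) → MvPolynomial ((Fin (q + 1) ⊕ Fin (q + 1)) ⊕ (Fin p ⊕ Fin p)) K :=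
    Fin.cons (X (Sum.inl (Sum.inl (Fin.last q)))) fun j => X (Sum.inr (Sum.inl j))
  let E : Fin (p + 1) → MvPolynomial ((Fin (q + 1) ⊕ Fin (q + 1)) ⊕ (Fin p ⊕ Fin p)) K :=
    Fin.cons (X (Sum.inl (Sum.inr (Fin.last q)))) fun j => X (Sum.inr (Sum.inr j))
  let A : (Fin q ⊕ Fin q) ⊕ (Fin (p + 1) ⊕ Fin (p + 1)) →
      MvPolynomial ((Fin (q + 1) ⊕ Fin (q + 1)) ⊕ (Fin p ⊕ Fin p)) K :=
    Sum.elim (Sum.elim (fun i => X (Sum.inl (Sum.inl i.castSucc)))
      (fun i => X (Sum.inl (Sum.inr i.castSucc))))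
      (Sum.elim (fun i => ∑ j, C (M' i j : K) * U j) (fun i => ∏ j, E j ^ (M' i j).toNat))
  let B : (Fin q ⊕ Fin q) ⊕ (Fin (p + 1) ⊕ Fin (p + 1)) →
      MvPolynomial ((Fin (q + 1) ⊕ Fin (q + 1)) ⊕ (Fin p ⊕ Fin p)) K :=
    Sum.elim (fun _ => 1) (Sum.elim (fun _ => 1) (fun i => ∏ j, E j ^ (-(M' i j)).toNat))
  obtain ⟨G, D, hGD⟩ := clr A B g
  refine ⟨G, D, fun t a w => ?_⟩
  obtain ⟨z, hz⟩ : ∃ z, z = Sum.elim (ex (Fin.snoc t a : Fin (q + 1) → ℂ)) (ex w) := ⟨_, rfl⟩
  rw [← hz]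
  have hU : ∀ j, aeval z (U j) = (Fin.cons a w : Fin (p + 1) → ℂ) j := by
    intro j
    refine Fin.cases ?_ (fun j => ?_) j
    · simp [U, hz, ex]
    · simp [U, hz, ex]
  have hE : ∀ j, aeval z (E j) = Complex.exp ((Fin.cons a w : Fin (p + 1) → ℂ) j) := by
    intro j
    refine Fin.cases ?_ (fun j => ?_) j
    · simp [E, hz, ex]
    · simp [E, hz, ex]
  have hB : ∀ s, aeval z (B s) ≠ 0 := by
    rintro (i | (i | i))
    · simp [B]
    · simp [B]
    · simp only [B, Sum.elim_inr, map_prod, map_pow, hE]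
      exact Finset.prod_ne_zero_iff.2 fun j _ => pow_ne_zero _ (Complex.exp_ne_zero _)
  obtain ⟨h1, h2⟩ := hGD z hB
  refine ⟨h1, ?_⟩
  rw [h2]
  congr 2
  congr 1
  funext s
  rcases s with (i | i) | (i | i)
  · simp [A, B, hz, ex]
  · simp [A, B, hz, ex]
  · simp only [A, B, Sum.elim_inr, Sum.elim_inl, map_sum, map_mul, hU, map_one, div_one,
      map_intCast, ex]
  · simp only [A, B, Sum.elim_inr, map_prod, map_pow, hE, ex]
    rw [Complex.exp_sum, ← Finset.prod_div_distrib]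
    refine Finset.prod_congr rfl fun j _ => ?_
    rw [Complex.exp_int_mul]
    obtain ⟨e, he⟩ : ∃ e, e = Complex.exp ((Fin.cons a w : Fin (p + 1) → ℂ) j) := ⟨_, rfl⟩
    have he0 : e ≠ 0 := by rw [he]; exact Complex.exp_ne_zero _
    rw [← he, ← zpow_natCast, ← zpow_natCast, ← zpow_sub₀ he0]
    congr 1
    omega

theorem ind (hstep : S_step) (hlast : S_last) (hlat : S_latN) : S_ind := by
  intro N hF K hK p
  induction p with
  | zero =>
    intro _ q t t' hS w _
    exact rel_zero hS.iso w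
  | succ p ih =>
    intro hpN q t t' hS w hI
    by_cases hc : ∀ m : Fin (p + 1) → ℤ, m ≠ 0 →
        (∑ j, (m j : ℂ) * w j) ∉ acl K (Set.range (ex t)) ∧
        Complex.exp (∑ j, (m j : ℂ) * w j) ∉ acl K (Set.range (ex t))
    · exact hlast (p + 1) (Nat.succ_pos p) (hF (p + 1) (Nat.succ_pos p) hpN) K hK q t t' hS w hI hc
    push Not at hc
    obtain ⟨m₀, hm₀, hc⟩ := hc
    obtain ⟨m, hm, hP, hprim⟩ := exists_min
      (fun m => (∑ j, (m j : ℂ) * w j) ∈ acl K (Set.range (ex t)) ∨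
        Complex.exp (∑ j, (m j : ℂ) * w j) ∈ acl K (Set.range (ex t))) m₀ hm₀ (by
          by_cases h : (∑ j, (m₀ j : ℂ) * w j) ∈ acl K (Set.range (ex t))
          · exact Or.inl h
          · exact Or.inr (hc h)) (by
          intro k m' hk h
          have h1 : ∑ j, ((k • m') j : ℂ) * w j = (k : ℂ) * ∑ j, (m' j : ℂ) * w j := by
            rw [Finset.mul_sum]
            refine Finset.sum_congr rfl fun j _ => ?_
            rw [Pi.smul_apply, smul_eq_mul]
            push_cast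
            ring
          rw [h1] at h
          rcases h with h | h
          · exact Or.inl (div_int hk h)
          · exact Or.inr (root_acl hk h))
    obtain ⟨M, M', hMM', hM'M, hM0⟩ := hlat.2 p m hm hprim
    obtain ⟨u, hu⟩ : ∃ u : Fin (p + 1) → ℂ, u = fun i => ∑ j, (M i j : ℂ) * w j := ⟨_, rfl⟩
    have hu0 : u 0 = ∑ j, (m j : ℂ) * w j := by rw [hu]; simp only [hM0]
    -- integral combinations of the `u`
    have hcomb : ∀ c : Fin (p + 1) → ℤ, ∑ i, (c i : ℂ) * u i =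
        ∑ j, ((Matrix.vecMul c M j : ℤ) : ℂ) * w j := by
      intro c
      rw [hu]
      simp only [Finset.mul_sum, Matrix.vecMul, dotProduct]
      rw [Finset.sum_comm]
      refine Finset.sum_congr rfl fun j _ => ?_
      push_cast
      rw [Finset.sum_mul]
      refine Finset.sum_congr rfl fun i _ => ?_
      ring
    have hI1 : ∀ (n : Fin q → ℤ) (c : Fin (p + 1) → ℤ),
        (∑ j, (n j : ℂ) * t j + ∑ i, (c i : ℂ) * u i) ∈ K → n = 0 ∧ c = 0 := by
      intro n c h
      rw [hcomb] at h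
      have h1 := hI (Fin.append n (Matrix.vecMul c M)) (by
        rw [sum_append]
        simpa using h)
      have h2 : n = 0 := by
        funext j
        have := congrFun h1 (Fin.castAdd _ j)
        simpa using this
      have h3 : Matrix.vecMul c M = 0 := by
        funext j
        have := congrFun h1 (Fin.natAdd _ j)
        simpa using this
      refine ⟨h2, ?_⟩
      have h4 := congrArg (fun v => Matrix.vecMul v M') h3
      simpa [Matrix.vecMul_vecMul, hMM'] using h4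
    have hIa : Ind K (Fin.snoc t (u 0) : Fin (q + 1) → ℂ) := by
      intro n hn
      rw [Fin.sum_univ_castSucc] at hn
      simp only [Fin.snoc_castSucc, Fin.snoc_last] at hn
      have h1 := hI1 (fun j => n j.castSucc) (Fin.cons (n (Fin.last q)) 0) (by
        rw [Fin.sum_univ_succ (n := p)]
        simpa using hn)
      funext j
      refine Fin.lastCases ?_ (fun j => ?_) j
      · have := congrFun h1.2 0
        simpa using this
      · exact congrFun h1.1 j
    obtain ⟨a', ha'⟩ := hstep K hK q t t' hS (u 0) hIa (by rw [hu0]; exact hP)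
    obtain ⟨w₁, hw₁⟩ := ih (by omega) (q + 1) _ _ ha' (fun i => u i.succ) (by
      intro n hn
      rw [sum_append, Fin.sum_univ_castSucc] at hn
      simp only [Fin.snoc_castSucc, Fin.snoc_last] at hn
      have h1 := hI1 (fun j => n (Fin.castAdd p j.castSucc))
        (Fin.cons (n (Fin.castAdd p (Fin.last q))) fun i => n (Fin.natAdd (q + 1) i)) (by
          rw [Fin.sum_univ_succ (n := p)]
          simp only [Fin.cons_zero, Fin.cons_succ]
          rw [← add_assoc]
          exact hn)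
      funext j
      refine Fin.addCases (fun j => ?_) (fun j => ?_) j
      · refine Fin.lastCases ?_ (fun j => ?_) j
        · exact congrFun h1.2 0
        · exact congrFun h1.1 j
      · exact congrFun h1.2 j.succ)
    refine ⟨fun i => ∑ j, (M' i j : ℂ) * (Fin.cons a' w₁ : Fin (p + 1) → ℂ) j, fun g hg => ?_⟩
    obtain ⟨G, D, hGD⟩ := rel_of (K := K) (q := q) M' g
    have hw : (fun i => ∑ j, (M' i j : ℂ) *
        (Fin.cons (u 0) (fun i => u i.succ) : Fin (p + 1) → ℂ) j) = w := by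
      funext i
      have h1 : (Fin.cons (u 0) (fun i => u i.succ) : Fin (p + 1) → ℂ) = u := Fin.cons_self_tail u
      rw [h1, hcomb]
      have h2 : Matrix.vecMul (M' i) M = (M' * M) i := rfl
      rw [h2, hM'M]
      simp [Matrix.one_apply]
    have h1 := (hGD t (u 0) (fun i => u i.succ)).2
    rw [hw, hg, mul_zero] at h1
    have h2 := hw₁ G h1
    obtain ⟨h3, h4⟩ := hGD t' a' w₁
    rw [h2] at h4
    exact (mul_eq_zero.1 h4.symm).resolve_left h3

end Pool.Agent.H800.QK
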