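import Pool.Agent.H664.QK.Stm

/-! # QK, job ISOX: isomorphisms of algebraically closed fields over countable subfields -/

set_option autoImplicit false

open Cardinal

namespace Pool.Agent.H800.QK

open Pool.Agent.H664.QK

theorem isox : S_isox := by
  intro k₀ _ _ k₁ _ _ a b hk
  let : Algebra k₀ k₁ := a.toAlgebra
  let : Algebra k₀ ℂ := b.toAlgebra
  obtain ⟨s, hs⟩ := exists_isTranscendenceBasis k₀ k₁
  obtain ⟨t, ht⟩ := exists_isTranscendenceBasis k₀ ℂ
  have h0 : #k₀ ≤ ℵ₀ := mk_le_aleph0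
  have h1 : #k₁ = #s := IsAlgClosed.cardinal_eq_cardinal_transcendence_basis_of_aleph0_lt' _ hs h0
    (by rw [hk]; exact aleph0_lt_continuum)
  have h2 : #ℂ = #t := IsAlgClosed.cardinal_eq_cardinal_transcendence_basis_of_aleph0_lt' _ ht h0
    (by rw [Cardinal.mk_complex]; exact aleph0_lt_continuum)
  have h3 : #s = #t := by rw [← h1, ← h2, hk, Cardinal.mk_complex]
  obtain ⟨e⟩ := Cardinal.eq.1 h3
  have i1 := IsAlgClosed.isAlgClosure_of_transcendence_basis _ hs
  have i2 := IsAlgClosed.isAlgClosure_of_transcendence_basis _ ht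
  let e' : Algebra.adjoin k₀ (Set.range (Subtype.val : s → k₁)) ≃ₐ[k₀]
      Algebra.adjoin k₀ (Set.range (Subtype.val : t → ℂ)) :=
    hs.1.aevalEquiv.symm.trans ((MvPolynomial.renameEquiv k₀ e).trans ht.1.aevalEquiv)
  refine ⟨IsAlgClosure.equivOfEquiv k₁ ℂ e'.toRingEquiv, fun c => ?_⟩
  have h4 : a c = algebraMap (Algebra.adjoin k₀ (Set.range (Subtype.val : s → k₁))) k₁
      (algebraMap k₀ _ c) := rfl
  rw [h4, IsAlgClosure.equivOfEquiv_algebraMap]
  have h5 : e'.toRingEquiv (algebraMap k₀ _ c) = algebraMap k₀ _ c := e'.commutes c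
  rw [h5]
  rfl

end Pool.Agent.H800.QK
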